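import Pool.Agent.Mg.Fd3be90.G7f69cb
import Pool.Agent.Mg.Fd3be90.G31ed9f

set_option autoImplicit false
open scoped Classical

namespace Pool.Agent.Results.MP_d3be90_lc.PolylogGap

open Pool.Agent.MP_d3be90_lc in
/-- On `H`-minor-free graphs with `n` vertices the Sherali-Adams relaxation of level
`K (|H| + 1) ^ 6 (log n + 1) ^ 8 / ε ^ 7` for Sparsest Cut with general demands has gap at most
`2 + ε`, with an absolute constant `K`. -/
theorem result :
  ∃ K : ℝ,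
    ∀ (W : Type) [Fintype W] (H : SimpleGraph W) (ε : ℝ), 0 < ε → ε ≤ 1 →
      ∀ (V : Type) [Fintype V] (G : SimpleGraph V),
        (¬ ∃ φ : W → Set V,
            (∀ w, (φ w).Nonempty) ∧
            (∀ w, (G.induce (φ w)).Connected) ∧
            (∀ w w', w ≠ w' → Disjoint (φ w) (φ w')) ∧
            (∀ w w', H.Adj w w' → ∃ x ∈ φ w, ∃ y ∈ φ w', G.Adj x y)) →
        ∀ k : ℕ,
          K * ((Fintype.card W : ℝ) + 1) ^ 6 * ((Nat.log 2 (Fintype.card V) : ℝ) + 1) ^ 8 / ε ^ 7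
            ≤ k →
        ∀ (cap dem : V → V → ℝ),
          (∀ u v, cap u v = cap v u) →
          (∀ u v, dem u v = dem v u) →
          (∀ u v, G.Adj u v → 0 < cap u v) →
          (∀ u v, 0 ≤ dem u v) →
          ∀ μ : Finset V → Finset V → ℝ,
            (∀ S : Finset V, S.card ≤ k →
                (∀ A ∈ S.powerset, 0 ≤ μ S A) ∧ ∑ A ∈ S.powerset, μ S A = 1) →
            (∀ S T : Finset V, S ⊆ T → T.card ≤ k →
                ∀ B ∈ S.powerset,
                  μ S B = ∑ A ∈ T.powerset, (if A ∩ S = B then μ T A else 0)) →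
            ∀ d : V → V → ℝ,
              (∀ u v, d u v = ∑ A ∈ ({u, v} : Finset V).powerset,
                  (if (u ∈ A ↔ v ∈ A) then 0 else μ ({u, v} : Finset V) A)) →
              0 < ∑ u, ∑ v, dem u v * d u v →
              ∃ S : Finset V,
                0 < ∑ u ∈ S, ∑ v ∈ Sᶜ, dem u v ∧
                (∑ u ∈ S, ∑ v ∈ Sᶜ, (if G.Adj u v then cap u v else 0)) *
                    (∑ u, ∑ v, dem u v * d u v)
                  ≤ (2 + ε) * (∑ u, ∑ v, (if G.Adj u v then cap u v * d u v else 0)) *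
                    (∑ u ∈ S, ∑ v ∈ Sᶜ, dem u v) := by
  refine ⟨10 ^ 17 * 3 ^ 6 * 51 ^ 7, ?_⟩
  intro W _ H ε hε hε1
  have hT1 : 50 / ε ≤ ⌈50 / ε⌉₊ := Nat.le_ceil _
  have hT0 : (50 : ℝ) ≤ 50 / ε := by rw [le_div_iff₀ hε]; linarith
  have hT2 : 2 ≤ ⌈50 / ε⌉₊ := by
    have : (2 : ℝ) ≤ ⌈50 / ε⌉₊ := by linarith
    exact_mod_cast this
  have hT3 : (⌈50 / ε⌉₊ : ℝ) ≤ 51 / ε := by
    have h1 := Nat.ceil_lt_add_one (a := 50 / ε) (by linarith)
    have h2 : 1 ≤ 1 / ε := by rw [le_div_iff₀ hε]; linarith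
    have h3 : 51 / ε = 50 / ε + 1 / ε := by ring
    linarith
  have h0 := win (Fintype.card W + 2) (by omega) ε hε _ hT2 hT1
  intro V _ G hG k hk' cap dem hcap hdem hpos hd0 μ hμ1 hμ2 d hd hD
  have hk : 10 ^ 17 * (Fintype.card W + 2 + 1) ^ 6 * ⌈50 / ε⌉₊ ^ 7 *
      (Nat.log 2 (Fintype.card V) + 1) ^ 8 ≤ k := by
    have h1 : ((Fintype.card W : ℝ) + 2 + 1) ≤ 3 * (Fintype.card W + 1) := by
      have : (0 : ℝ) ≤ Fintype.card W := Nat.cast_nonneg _
      linarith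
    have h2 : (10 : ℝ) ^ 17 * (Fintype.card W + 2 + 1) ^ 6 * (⌈50 / ε⌉₊ : ℝ) ^ 7 *
        (Nat.log 2 (Fintype.card V) + 1) ^ 8 ≤ k := by
      refine le_trans ?_ hk'
      calc (10 : ℝ) ^ 17 * (Fintype.card W + 2 + 1) ^ 6 * (⌈50 / ε⌉₊ : ℝ) ^ 7 *
            (Nat.log 2 (Fintype.card V) + 1) ^ 8
          ≤ 10 ^ 17 * (3 * (Fintype.card W + 1)) ^ 6 * (51 / ε) ^ 7 *
            (Nat.log 2 (Fintype.card V) + 1) ^ 8 := by gcongr
        _ = _ := by ring
    exact_mod_cast h2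
  have hk3 : 3 ≤ k := by
    refine le_trans ?_ hk
    calc 3 ≤ 10 ^ 17 * 1 ^ 6 * 1 ^ 7 * 1 ^ 8 := by norm_num
      _ ≤ _ := by gcongr <;> omega
  obtain rfl : d = dSA μ := by ext u v; exact hd u v
  have hμ : SA k μ := ⟨fun S h => (hμ1 S h).1, fun S h => (hμ1 S h).2, hμ2⟩
  obtain ⟨c, hc⟩ : ∃ c : V → V → ℝ, c = fun u v => if G.Adj u v then cap u v else 0 := ⟨_, rfl⟩
  have c1 : ∀ x y, 0 ≤ c x y := fun x y => by
    rw [hc]; dsimp only; split_ifs with h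
    · exact (hpos x y h).le
    · exact le_rfl
  have c2 : ∀ x y, c x y = c y x := fun x y => by
    rw [hc]; simp only [G.adj_comm x y, hcap x y]
  have c3 : ∀ x y, ¬ G.Adj x y → c x y = 0 := fun x y h => by rw [hc]; exact if_neg h
  obtain ⟨S, hS, hmin⟩ := exists_sparsest (fun A => ∑ u ∈ A, ∑ v ∈ Aᶜ, c u v)
    (fun A => ∑ u ∈ A, ∑ v ∈ Aᶜ, dem u v)
    (fun A => Finset.sum_nonneg fun u _ => Finset.sum_nonneg fun v _ => c1 u v)
    (fun A => Finset.sum_nonneg fun u _ => Finset.sum_nonneg fun v _ => hd0 u v) (by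
      obtain ⟨u, -, hu⟩ := Finset.exists_ne_zero_of_sum_ne_zero hD.ne'
      obtain ⟨v, -, hv⟩ := Finset.exists_ne_zero_of_sum_ne_zero hu
      have huv : v ≠ u := by
        rintro rfl
        exact hv (by rw [dSA_self, mul_zero])
      refine ⟨{u}, ?_⟩
      rw [Finset.sum_singleton]
      exact ((hd0 u v).lt_of_ne' (left_ne_zero_of_mul hv)).trans_le
        (Finset.single_le_sum (fun v _ => hd0 u v) (by simpa using huv)))
  obtain ⟨a, ha⟩ : ∃ a, a = ∑ u ∈ S, ∑ v ∈ Sᶜ, c u v := ⟨_, rfl⟩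
  obtain ⟨b, hb⟩ : ∃ b, b = ∑ u ∈ S, ∑ v ∈ Sᶜ, dem u v := ⟨_, rfl⟩
  simp only [← ha, ← hb] at hS hmin
  have a0 : 0 ≤ a := ha ▸ Finset.sum_nonneg fun u _ => Finset.sum_nonneg fun v _ => c1 u v
  have key := h0 V G (fun h => hG (h.minor H)) (Nat.log 2 (Fintype.card V) + 1) (by omega)
    (Nat.lt_pow_succ_log_self (by norm_num) _) k μ hμ hk3 hk c c1 c2 c3
    (fun u v => a / b * dem u v) (fun u v => mul_nonneg (div_nonneg a0 hS.le) (hd0 u v))
    fun A => by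
      rw [cutW_eq c c2, cutW_eq _ fun x y => by rw [hdem]]
      simp only [← Finset.mul_sum]
      exact mul_le_mul_of_nonneg_left (hmin A) (by norm_num)
  refine ⟨S, hb ▸ hS, ?_⟩
  have e1 : ∑ u ∈ S, ∑ v ∈ Sᶜ, (if G.Adj u v then cap u v else 0) = a := by rw [ha, hc]
  have e2 : ∑ u, ∑ v, (if G.Adj u v then cap u v * dSA μ u v else 0) =
      ∑ u, ∑ v, c u v * dSA μ u v := by
    rw [hc]; simp only [ite_mul, zero_mul]
  rw [e1, e2, ← hb]
  simp only [mul_assoc, ← Finset.mul_sum] at key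
  rw [div_mul_eq_mul_div, div_le_iff₀ hS] at key
  exact key

end Pool.Agent.Results.MP_d3be90_lc.PolylogGap
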